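import Mathlib

namespace Pool.Agent.Results.MP_97b8d2_co.SphereDim

open Finset

/-- Contraction of the edge `u v` of `G`: the vertex `v` is identified with `u`; loops and parallel
edges are discarded. -/
def contract {α : Type} (G : SimpleGraph α) (u v : α) : SimpleGraph {x // x ≠ v} where
  Adj x y := x ≠ y ∧ (G.Adj x.1 y.1 ∨ (x.1 = u ∧ G.Adj v y.1) ∨ (y.1 = u ∧ G.Adj v x.1))
  symm := ⟨fun _ _ h => ⟨h.1.symm, by
    rcases h.2 with h | h | h
    · exact Or.inl h.symm
    · exact Or.inr (Or.inr h)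
    · exact Or.inr (Or.inl h)⟩⟩
  loopless := ⟨fun _ h => h.1 rfl⟩

/-- `IsIndMinor H α G`: a graph isomorphic to `H` arises from `G` by a sequence of vertex deletions
and edge contractions. -/
inductive IsIndMinor {β : Type} (H : SimpleGraph β) : ∀ α : Type, SimpleGraph α → Prop
  | iso {α : Type} (G : SimpleGraph α) : Nonempty (H ≃g G) → IsIndMinor H α G
  | del {α : Type} (G : SimpleGraph α) (v : α) :
      IsIndMinor H {x // x ≠ v} (G.induce {x | x ≠ v}) → IsIndMinor H α G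
  | con {α : Type} (G : SimpleGraph α) (u v : α) :
      G.Adj u v → IsIndMinor H {x // x ≠ v} (contract G u v) → IsIndMinor H α G

/-- `G` is a `d`-sphere graph. -/
def IsSphereGraph {α : Type} (d : ℕ) (G : SimpleGraph α) : Prop :=
  ∃ (c : α → EuclideanSpace ℝ (Fin d)) (r : α → ℝ), (∀ v, 0 < r v) ∧
    ∀ u v, u ≠ v → (G.Adj u v ↔ (Metric.sphere (c u) (r u) ∩ Metric.sphere (c v) (r v)).Nonempty)

/-- `G` is a circle graph: the intersection graph of chords of the unit circle. -/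
def IsCircleGraph {α : Type} (G : SimpleGraph α) : Prop :=
  ∃ a b : α → EuclideanSpace ℝ (Fin 2), (∀ v, ‖a v‖ = 1 ∧ ‖b v‖ = 1 ∧ a v ≠ b v) ∧
    ∀ u v, u ≠ v → (G.Adj u v ↔ (segment ℝ (a u) (b u) ∩ segment ℝ (a v) (b v)).Nonempty)

open Classical in
/-- The sphere dimension: `1` for circle graphs, otherwise the least `d ≥ 2` such that `G` is a
`d`-sphere graph. -/
noncomputable def sphereDim {α : Type} (G : SimpleGraph α) : ℕ∞ :=
  if IsCircleGraph G then 1 else ⨅ (d : ℕ) (_ : 2 ≤ d ∧ IsSphereGraph d G), (d : ℕ∞)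

/-- The finite graphs without `H` as an induced minor have bounded sphere dimension. -/
def BoundedForb {m : ℕ} (H : SimpleGraph (Fin m)) : Prop :=
  ∃ D : ℕ, ∀ (n : ℕ) (G : SimpleGraph (Fin n)), ¬ IsIndMinor H (Fin n) G → sphereDim G ≤ D

theorem cobip {β : Type} {H : SimpleGraph β} {α : Type} {G : SimpleGraph α}
    (h : IsIndMinor H α G) : Gᶜ.Colorable 2 → Hᶜ.Colorable 2 := by
  induction h with
  | iso G e =>
    obtain ⟨e⟩ := e
    rintro ⟨C⟩
    refine ⟨SimpleGraph.Coloring.mk (fun x => C (e x)) fun {x y} hxy => C.valid ?_⟩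
    rw [SimpleGraph.compl_adj] at hxy ⊢
    exact ⟨e.injective.ne hxy.1, fun h => hxy.2 (e.map_rel_iff.mp h)⟩
  | del G v _ ih =>
    rintro ⟨C⟩
    refine ih ⟨SimpleGraph.Coloring.mk (fun x => C x.1) fun {x y} hxy => C.valid ?_⟩
    rw [SimpleGraph.compl_adj] at hxy ⊢
    exact ⟨fun h => hxy.1 (Subtype.ext h), fun h => hxy.2 h⟩
  | con G u v _ _ ih =>
    rintro ⟨C⟩
    refine ih ⟨SimpleGraph.Coloring.mk (fun x => C x.1) fun {x y} hxy => C.valid ?_⟩
    rw [SimpleGraph.compl_adj] at hxy ⊢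
    exact ⟨fun h => hxy.1 (Subtype.ext h), fun h => hxy.2 ⟨hxy.1, Or.inl h⟩⟩

theorem no_shatter {ι : Type} [Fintype ι] {N : ℕ} (hN : Fintype.card ι < N)
    (φ : Fin N → ι → ℝ) (ψ : Finset (Fin N) → ι → ℝ)
    (h : ∀ a S, a ∈ S ↔ ∑ i, φ a i * ψ S i ≤ 0) : False := by
  classical
  have hli : ¬ LinearIndependent ℝ φ := by
    intro hl
    have := hl.fintype_card_le_finrank
    rw [Module.finrank_pi, Fintype.card_fin] at this
    omega
  have key : ∀ g : Fin N → ℝ, ∑ a, g a • φ a = 0 → ∀ a, g a ≤ 0 := by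
    intro g hg a
    by_contra ha
    let S := univ.filter fun a => g a ≤ 0
    have h0 : ∑ a, g a * ∑ i, φ a i * ψ S i = 0 := by
      simp only [Finset.mul_sum]
      rw [Finset.sum_comm]
      refine Finset.sum_eq_zero fun i _ => ?_
      have := congrFun hg i
      simp only [Finset.sum_apply, Pi.smul_apply, smul_eq_mul, Pi.zero_apply] at this
      simp only [← mul_assoc, ← Finset.sum_mul, this, zero_mul]
    have hpos : ∀ b, ¬ g b ≤ 0 → 0 < g b * ∑ i, φ b i * ψ S i := by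
      intro b hb
      refine mul_pos (not_le.mp hb) (not_le.mp fun h' => hb ?_)
      exact (Finset.mem_filter.mp ((h b S).mpr h')).2
    refine absurd h0 (ne_of_gt (Finset.sum_pos' (fun b _ => ?_) ⟨a, Finset.mem_univ _, hpos a ha⟩))
    by_cases hb : g b ≤ 0
    · exact mul_nonneg_of_nonpos_of_nonpos hb
        ((h b S).mp (Finset.mem_filter.mpr ⟨Finset.mem_univ _, hb⟩))
    · exact (hpos b hb).le
  obtain ⟨g, hg, a, ha⟩ := Fintype.not_linearIndependent_iff.mp hli
  have h1 := key g hg a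
  have h2 := key (fun a => - g a) (by simp [hg]) a
  exact ha (by linarith)

theorem sphere_inter {d : ℕ} (hd : 2 ≤ d) (c c' : EuclideanSpace ℝ (Fin d)) {r r' : ℝ}
    (hr : 0 < r) (hr' : 0 < r') : (Metric.sphere c r ∩ Metric.sphere c' r').Nonempty ↔
      (‖c - c'‖ ^ 2 - r ^ 2 - r' ^ 2) ^ 2 - 4 * r ^ 2 * r' ^ 2 ≤ 0 := by
  have hδ := norm_nonneg (c - c')
  have e : (‖c - c'‖ ^ 2 - r ^ 2 - r' ^ 2) ^ 2 - 4 * r ^ 2 * r' ^ 2 ≤ 0 ↔
      (‖c - c'‖ ≤ r + r' ∧ r ≤ ‖c - c'‖ + r' ∧ r' ≤ ‖c - c'‖ + r) := by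
    generalize ‖c - c'‖ = δ at hδ
    have f : (δ ^ 2 - r ^ 2 - r' ^ 2) ^ 2 - 4 * r ^ 2 * r' ^ 2
        = -((δ + r + r') * ((r + r' - δ) * (δ + r' - r) * (δ + r - r'))) := by ring
    have hp : 0 < δ + r + r' := by linarith
    rw [f, neg_nonpos, mul_nonneg_iff_of_pos_left hp]
    constructor
    · intro h
      refine ⟨?_, ?_, ?_⟩ <;> by_contra hc <;> push Not at hc
      · have : 0 < (δ - (r + r')) * (δ + r' - r) * (δ + r - r') := by
          apply mul_pos (mul_pos _ _) <;> linarith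
        linarith
      · have : 0 < (r + r' - δ) * (r - (δ + r')) * (δ + r - r') := by
          apply mul_pos (mul_pos _ _) <;> linarith
        linarith
      · have : 0 < (r + r' - δ) * (δ + r' - r) * (r' - (δ + r)) := by
          apply mul_pos (mul_pos _ _) <;> linarith
        linarith
    · rintro ⟨h1, h2, h3⟩
      apply mul_nonneg (mul_nonneg _ _) <;> linarith
  rw [e]
  constructor
  · rintro ⟨x, h1, h2⟩
    rw [Metric.mem_sphere] at h1 h2
    rw [← dist_eq_norm]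
    have t1 := dist_triangle_left c c' x
    have t2 := dist_triangle x c' c
    have t3 := dist_triangle x c c'
    rw [dist_comm c' c] at t2
    exact ⟨by linarith, by linarith, by linarith⟩
  · rintro ⟨h1, h2, h3⟩
    have hrank : 1 < Module.rank ℝ (EuclideanSpace ℝ (Fin d)) := by
      rw [← Module.finrank_eq_rank, finrank_euclideanSpace_fin]
      exact_mod_cast hd
    obtain ⟨u, hu, hw⟩ : ∃ u : EuclideanSpace ℝ (Fin d), ‖u‖ = 1 ∧ c - c' = ‖c - c'‖ • u := by
      by_cases h0 : c - c' = 0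
      · refine ⟨EuclideanSpace.single ⟨0, by omega⟩ 1, by simp, by simp [h0]⟩
      · have hn : ‖c - c'‖ ≠ 0 := norm_ne_zero_iff.mpr h0
        refine ⟨‖c - c'‖⁻¹ • (c - c'), by rw [norm_smul, norm_inv, norm_norm, inv_mul_cancel₀ hn],
          by rw [smul_smul, mul_inv_cancel₀ hn, one_smul]⟩
    have hpt : ∀ s : ℝ, dist (c + s • u) c' = |‖c - c'‖ + s| := by
      intro s
      have : c + s • u - c' = (‖c - c'‖ + s) • u := by
        rw [add_smul, ← hw]; abel
      rw [dist_eq_norm, this, norm_smul, hu, mul_one, Real.norm_eq_abs]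
    have hm : ∀ s : ℝ, |s| = r → c + s • u ∈ Metric.sphere c r := by
      intro s hs
      simp [norm_smul, hu, hs]
    have := (isPreconnected_sphere hrank c r).intermediate_value (hm (-r) (by simp [abs_of_pos hr]))
      (hm r (abs_of_pos hr)) (f := fun x => dist x c') (by fun_prop)
    obtain ⟨x, hx, hx'⟩ := this (show r' ∈ _ from ⟨by
      simp only [hpt]; rw [abs_le]; constructor <;> linarith, by
      simp only [hpt]; exact le_trans (by linarith) (le_abs_self _)⟩)
    exact ⟨x, hx, hx'⟩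

theorem chord_inter (a b a' b' : EuclideanSpace ℝ (Fin 2)) (ha : ‖a‖ = 1) (hb : ‖b‖ = 1)
    (hab : a ≠ b) (ha' : ‖a'‖ = 1) (hb' : ‖b'‖ = 1) :
    (segment ℝ a b ∩ segment ℝ a' b').Nonempty ↔
      ((b 0 - a 0) * (a' 1 - a 1) - (b 1 - a 1) * (a' 0 - a 0)) *
        ((b 0 - a 0) * (b' 1 - a 1) - (b 1 - a 1) * (b' 0 - a 0)) ≤ 0 := by
  constructor
  · rintro ⟨x, ⟨s, t, hs, ht, hst, rfl⟩, ⟨s', t', hs', ht', hst', h⟩⟩
    have h0 := congrFun (congrArg (fun z : EuclideanSpace ℝ (Fin 2) => z.ofLp) h) 0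
    have h1 := congrFun (congrArg (fun z : EuclideanSpace ℝ (Fin 2) => z.ofLp) h) 1
    simp only [WithLp.ofLp_add, WithLp.ofLp_smul, Pi.add_apply, Pi.smul_apply, smul_eq_mul] at h0 h1
    obtain rfl : s = 1 - t := by linarith
    obtain rfl : s' = 1 - t' := by linarith
    set P := (b 0 - a 0) * (a' 1 - a 1) - (b 1 - a 1) * (a' 0 - a 0)
    set Q := (b 0 - a 0) * (b' 1 - a 1) - (b 1 - a 1) * (b' 0 - a 0)
    have hPQ : (1 - t') * P + t' * Q = 0 := by
      simp only [P, Q]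
      linear_combination (b 0 - a 0) * h1 - (b 1 - a 1) * h0
    have : P * Q = -((1 - t') * (P * P) + t' * (Q * Q)) := by
      linear_combination (P + Q) * hPQ
    rw [this, neg_nonpos]
    exact add_nonneg (mul_nonneg hs' (mul_self_nonneg P)) (mul_nonneg ht' (mul_self_nonneg Q))
  · intro h
    set P := (b 0 - a 0) * (a' 1 - a 1) - (b 1 - a 1) * (a' 0 - a 0) with hP
    set Q := (b 0 - a 0) * (b' 1 - a 1) - (b 1 - a 1) * (b' 0 - a 0) with hQ
    obtain ⟨t, ht0, ht1, ht⟩ : ∃ t : ℝ, 0 ≤ t ∧ t ≤ 1 ∧ (1 - t) * P + t * Q = 0 := by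
      clear_value P Q
      by_cases hPQ : P = Q
      · refine ⟨0, le_rfl, zero_le_one, ?_⟩
        rw [← hPQ] at h
        have : P = 0 := by nlinarith [mul_self_nonneg P]
        simp [this]
      · have hne : P - Q ≠ 0 := sub_ne_zero.mpr hPQ
        have hpos : 0 < (P - Q) * (P - Q) := mul_self_pos.mpr hne
        refine ⟨P * (P - Q) / ((P - Q) * (P - Q)), div_nonneg (by nlinarith) hpos.le,
          (div_le_one hpos).mpr (by nlinarith), by field_simp; ring⟩
    have nrm : ∀ z : EuclideanSpace ℝ (Fin 2), ‖z‖ = 1 → z 0 ^ 2 + z 1 ^ 2 = 1 := by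
      intro z hz
      have := EuclideanSpace.real_norm_sq_eq z
      rw [hz, Fin.sum_univ_two] at this
      linarith
    have na := nrm a ha
    have nb := nrm b hb
    have na' := nrm a' ha'
    have nb' := nrm b' hb'
    have hL : 0 < (b 0 - a 0) ^ 2 + (b 1 - a 1) ^ 2 := by
      by_contra hc
      apply hab
      have e0 : b 0 - a 0 = 0 := pow_eq_zero_iff (two_ne_zero) |>.mp
        (le_antisymm (by linarith [sq_nonneg (b 1 - a 1)]) (sq_nonneg _))
      have e1 : b 1 - a 1 = 0 := pow_eq_zero_iff (two_ne_zero) |>.mp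
        (le_antisymm (by linarith [sq_nonneg (b 0 - a 0)]) (sq_nonneg _))
      ext i; fin_cases i
      · simp; linarith
      · simp; linarith
    set x0 := (1 - t) * a' 0 + t * b' 0 with hx0
    set x1 := (1 - t) * a' 1 + t * b' 1 with hx1
    have hx : x0 ^ 2 + x1 ^ 2 ≤ 1 := by
      have : x0 ^ 2 + x1 ^ 2 = 1 - t * (1 - t) * ((a' 0 - b' 0) ^ 2 + (a' 1 - b' 1) ^ 2) := by
        rw [hx0, hx1]; linear_combination (1 - t) * na' + t * nb'
      rw [this]
      have : 0 ≤ t * (1 - t) * ((a' 0 - b' 0) ^ 2 + (a' 1 - b' 1) ^ 2) :=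
        mul_nonneg (mul_nonneg ht0 (by linarith)) (by positivity)
      linarith
    have hl : (b 0 - a 0) * (x1 - a 1) - (b 1 - a 1) * (x0 - a 0) = 0 := by
      rw [hx0, hx1]; rw [hP, hQ] at ht; linear_combination ht
    set L := (b 0 - a 0) ^ 2 + (b 1 - a 1) ^ 2 with hLdef
    set τ := ((b 0 - a 0) * (x0 - a 0) + (b 1 - a 1) * (x1 - a 1)) / L with hτ
    have hτL : τ * L = (b 0 - a 0) * (x0 - a 0) + (b 1 - a 1) * (x1 - a 1) :=
      div_mul_cancel₀ _ hL.ne'
    have e0 : x0 = (1 - τ) * a 0 + τ * b 0 := by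
      apply mul_right_cancel₀ hL.ne'
      rw [hLdef] at hτL ⊢
      linear_combination (-(b 0 - a 0)) * hτL - (b 1 - a 1) * hl
    have e1 : x1 = (1 - τ) * a 1 + τ * b 1 := by
      apply mul_right_cancel₀ hL.ne'
      rw [hLdef] at hτL ⊢
      linear_combination (-(b 1 - a 1)) * hτL + (b 0 - a 0) * hl
    have hτ01 : 0 ≤ τ * (1 - τ) := by
      have : x0 ^ 2 + x1 ^ 2 = 1 - τ * (1 - τ) * L := by
        rw [e0, e1, hLdef]; linear_combination (1 - τ) * na + τ * nb
      have h3 : 0 ≤ τ * (1 - τ) * L := by linarith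
      exact (mul_nonneg_iff_of_pos_right hL).mp h3
    have aux : ∀ w : ℝ, 0 ≤ w * (1 - w) → 0 ≤ 1 - w ∧ 0 ≤ w := fun w hw =>
      ⟨by nlinarith, by nlinarith⟩
    refine ⟨(1 - t) • a' + t • b', ⟨1 - τ, τ, (aux τ hτ01).1, (aux τ hτ01).2, by ring, ?_⟩,
      ⟨1 - t, t, by linarith, ht0, by ring, rfl⟩⟩
    ext i; fin_cases i
    · simp; linarith
    · simp; linarith

/-- The co-bipartite graph that shatters `Fin N`. -/
def shat (N : ℕ) : SimpleGraph (Fin N ⊕ Finset (Fin N)) where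
  Adj
    | .inl a, .inl b => a ≠ b
    | .inr S, .inr T => S ≠ T
    | .inl a, .inr S => a ∈ S
    | .inr S, .inl a => a ∈ S
  symm := ⟨by rintro (a | S) (b | T) h <;> first | exact Ne.symm h | exact h⟩
  loopless := ⟨by rintro (a | S) h <;> exact h rfl⟩

theorem shat_cobip (N : ℕ) : (shat N)ᶜ.Colorable 2 := by
  refine ⟨SimpleGraph.Coloring.mk (fun x => Sum.elim (fun _ => 0) (fun _ => 1) x) ?_⟩
  rintro (a | S) (b | T) h
  · exact absurd (fun h' => h.1 (congrArg _ h')) h.2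
  · simp
  · simp
  · exact absurd (fun h' => h.1 (congrArg _ h')) h.2

theorem shat_not_sphere {d N : ℕ} (hd : 2 ≤ d) (hN : (d + 2) * (d + 2) + 1 < N) :
    ¬ IsSphereGraph d (shat N) := by
  rintro ⟨c, r, hr, h⟩
  let x : Fin N → Option (Option (Fin d)) → ℝ := fun a i =>
    i.elim 1 fun j => j.elim (‖c (.inl a)‖ ^ 2 - r (.inl a) ^ 2) fun k => c (.inl a) k
  let y : Finset (Fin N) → Option (Option (Fin d)) → ℝ := fun S i =>
    i.elim (‖c (.inr S)‖ ^ 2 - r (.inr S) ^ 2) fun j => j.elim 1 fun k => -2 * c (.inr S) k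
  refine no_shatter (ι := Option (Option (Option (Fin d)) × Option (Option (Fin d)))) (N := N)
    (by simpa using hN)
    (fun a i => i.elim (r (.inl a) ^ 2) fun p => x a p.1 * x a p.2)
    (fun S i => i.elim (-4 * r (.inr S) ^ 2) fun p => y S p.1 * y S p.2) fun a S => ?_
  have h1 := h (.inl a) (.inr S) (by simp)
  rw [sphere_inter hd _ _ (hr _) (hr _)] at h1
  have h2 : ‖c (.inl a) - c (.inr S)‖ ^ 2 - r (.inl a) ^ 2 - r (.inr S) ^ 2
      = ∑ i, x a i * y S i := by
    simp only [Fintype.sum_option, x, y, Option.elim, EuclideanSpace.real_norm_sq_eq,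
      PiLp.sub_apply, sub_sq, Finset.sum_add_distrib, Finset.sum_sub_distrib]
    have : ∑ k, c (.inl a) k * (-2 * c (.inr S) k) = -∑ k, 2 * c (.inl a) k * c (.inr S) k := by
      rw [← Finset.sum_neg_distrib]; exact Finset.sum_congr rfl fun k _ => by ring
    rw [this]; ring
  refine Iff.trans h1 ?_
  rw [h2, sq (∑ i, x a i * y S i), Finset.sum_mul_sum,
    Fintype.sum_option (α := Option (Option (Fin d)) × Option (Option (Fin d))),
    Fintype.sum_prod_type]
  simp only [Option.elim]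
  have : ∑ i, ∑ j, x a i * x a j * (y S i * y S j) = ∑ i, ∑ j, x a i * y S i * (x a j * y S j) :=
    Finset.sum_congr rfl fun i _ => Finset.sum_congr rfl fun j _ => by ring
  rw [this]
  constructor <;> intro h <;> linarith

theorem shat_not_circle {N : ℕ} (hN : 9 < N) : ¬ IsCircleGraph (shat N) := by
  rintro ⟨a, b, hab, h⟩
  let x : Fin N → Fin 3 → ℝ := fun v =>
    ![b (.inl v) 0 - a (.inl v) 0, -(b (.inl v) 1 - a (.inl v) 1),
      (b (.inl v) 1 - a (.inl v) 1) * a (.inl v) 0 - (b (.inl v) 0 - a (.inl v) 0) * a (.inl v) 1]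
  let y : EuclideanSpace ℝ (Fin 2) → Fin 3 → ℝ := fun z => ![z 1, z 0, 1]
  refine no_shatter (ι := Fin 3 × Fin 3) (N := N) (by simpa using hN)
    (fun v p => x v p.1 * x v p.2) (fun S p => y (a (.inr S)) p.1 * y (b (.inr S)) p.2)
    fun v S => ?_
  have h1 := h (.inl v) (.inr S) (by simp)
  rw [chord_inter _ _ _ _ (hab _).1 (hab _).2.1 (hab _).2.2 (hab _).1 (hab _).2.1] at h1
  refine Iff.trans h1 ?_
  simp only [Fintype.sum_prod_type, Fin.sum_univ_three, x, y, Matrix.cons_val_zero,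
    Matrix.cons_val_one, Matrix.cons_val]
  constructor <;> intro h <;> linarith

theorem unbounded {m : ℕ} (H : SimpleGraph (Fin m)) (hH : ¬ Hᶜ.Colorable 2) :
    ¬ BoundedForb H := by
  classical
  rintro ⟨D, hD⟩
  let N := (D + 2) * (D + 2) + 10
  let e := (Fintype.equivFin (Fin N ⊕ Finset (Fin N))).symm
  let G := (shat N).comap e
  have hG : ¬ IsIndMinor H _ G := by
    intro h
    refine hH (cobip h ?_)
    obtain ⟨C⟩ := shat_cobip N
    refine ⟨SimpleGraph.Coloring.mk (fun x => C (e x)) fun {x y} hxy => C.valid ?_⟩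
    exact ⟨e.injective.ne hxy.1, hxy.2⟩
  have h1 : ¬ IsCircleGraph G := by
    rintro ⟨a, b, hab, h⟩
    refine shat_not_circle (N := N) (by omega) ⟨a ∘ e.symm, b ∘ e.symm, fun v => hab _, ?_⟩
    intro u v huv
    have := h (e.symm u) (e.symm v) (e.symm.injective.ne huv)
    simpa [G] using this
  have h2 := hD _ G hG
  rw [sphereDim, if_neg h1] at h2
  have h3 : ((D + 1 : ℕ) : ℕ∞) ≤ ⨅ (d : ℕ) (_ : 2 ≤ d ∧ IsSphereGraph d G), (d : ℕ∞) := by
    refine le_iInf₂ fun d hd => ?_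
    by_contra hc
    have hdD : d ≤ D := by
      rw [Nat.cast_le] at hc; omega
    obtain ⟨c, r, hr, h⟩ := hd.2
    refine shat_not_sphere (N := N) hd.1 (by
      have := Nat.mul_le_mul (Nat.add_le_add_right hdD 2) (Nat.add_le_add_right hdD 2)
      omega) ⟨c ∘ e.symm, r ∘ e.symm, fun v => hr _, ?_⟩
    intro u v huv
    have := h (e.symm u) (e.symm v) (e.symm.injective.ne huv)
    simpa [G] using this
  have := h3.trans h2
  rw [Nat.cast_le] at this
  omega

theorem result :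
    (∀ (m : ℕ) (H : SimpleGraph (Fin m)), ¬ Hᶜ.Colorable 2 → ¬ BoundedForb H) ∧
      ¬ ∀ (m : ℕ) (H : SimpleGraph (Fin m)), BoundedForb H := by
  refine ⟨fun m H => unbounded H, fun h => unbounded (⊥ : SimpleGraph (Fin 3)) ?_ (h _ _)⟩
  rintro ⟨C⟩
  have h01 := C.valid (v := 0) (w := 1) (by simp)
  have h02 := C.valid (v := 0) (w := 2) (by simp)
  have h12 := C.valid (v := 1) (w := 2) (by simp)
  omega

end Pool.Agent.Results.MP_97b8d2_co.SphereDim
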